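import Pool.Agent.helper67.TPC.Spec
import Pool.Agent.helper29.OC.PIAP

set_option autoImplicit false

open Finset PowerSeries

noncomputable section

namespace Pool.Agent.TPC

open Pool.Agent.EP

private theorem FIN_mono (i a : ℕ) (r : ℕ → ZMod 2) {X Y : ℕ} (h : X ≤ Y) : sD i a r X ≤ sD i a r Y := by
  unfold sD
  apply card_le_card
  intro n hn
  rw [mem_filter, mem_range] at hn ⊢
  exact ⟨by omega, hn.2⟩

/-- the arithmetic of the final step -/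
private theorem FIN_arith (c₀ c₁ Q y r L P S₁ S₂ s q : ℝ) (hc₀ : 0 < c₀) (hc₁ : 0 < c₁) (hQ : 1 ≤ Q)
    (hr : r ^ 2 = y) (hr1 : 1 ≤ r) (hL : 0 < L) (hP : c₁ * y / L ≤ P)
    (hS1 : S₁ ≤ 3 * Q * r) (hS2 : S₂ ≤ 3 * Q * r)
    (hs : 0 ≤ s) (hq : 0 ≤ q) (hqr : q ≤ 2 * Q * r) (hLq : L ≤ c₀ / (48 * Q ^ 3) * q)
    (hcnt : P * (c₀ * y / L) ≤ 4 * S₁ * s + (2 * Q + 2) * S₂ * P) :
    c₀ * c₁ / (192 * Q ^ 4) * q ^ 3 / L ^ 2 ≤ s := by
  have hr0 : 0 < r := by linarith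
  have hQ0 : 0 < Q := by linarith
  have hy0 : 0 < y := by rw [← hr]; positivity
  have hP0 : 0 < P := lt_of_lt_of_le (by positivity) hP
  -- (2 Q + 2) S₂ ≤ c₀ y / (2 L)
  have h1 : (2 * Q + 2) * S₂ ≤ c₀ * y / L / 2 := by
    have h2 : 24 * Q ^ 2 * r ≤ c₀ * y / L := by
      rw [le_div_iff₀ hL, ← hr]
      have h3 : L ≤ c₀ / (48 * Q ^ 3) * (2 * Q * r) :=
        hLq.trans (mul_le_mul_of_nonneg_left hqr (by positivity))
      have h4 : c₀ / (48 * Q ^ 3) * (2 * Q * r) = c₀ * r / (24 * Q ^ 2) := by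
        field_simp
        norm_num
      rw [h4] at h3
      have h5 : 24 * Q ^ 2 * r * L ≤ 24 * Q ^ 2 * r * (c₀ * r / (24 * Q ^ 2)) :=
        mul_le_mul_of_nonneg_left h3 (by positivity)
      have h6 : 24 * Q ^ 2 * r * (c₀ * r / (24 * Q ^ 2)) = c₀ * r ^ 2 := by
        field_simp
      linarith
    have h7 : (2 * Q + 2) * S₂ ≤ 4 * Q * (3 * Q * r) := by
      have h8 : (2 * Q + 2) * S₂ ≤ (2 * Q + 2) * (3 * Q * r) :=
        mul_le_mul_of_nonneg_left hS2 (by positivity)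
      have h9 : (2 * Q + 2) * (3 * Q * r) ≤ 4 * Q * (3 * Q * r) :=
        mul_le_mul_of_nonneg_right (by linarith) (by positivity)
      linarith
    nlinarith
  have h3 : P * (c₀ * y / L) / 2 ≤ 4 * S₁ * s := by
    have : (2 * Q + 2) * S₂ * P ≤ c₀ * y / L / 2 * P := mul_le_mul_of_nonneg_right h1 hP0.le
    nlinarith
  have h4 : 4 * S₁ * s ≤ 12 * Q * r * s := by
    have := mul_le_mul_of_nonneg_right hS1 hs
    nlinarith
  have h5 : (c₁ * y / L) * (c₀ * y / L) ≤ P * (c₀ * y / L) :=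
    mul_le_mul_of_nonneg_right hP (by positivity)
  have h6 : (c₁ * y / L) * (c₀ * y / L) = c₀ * c₁ * r ^ 4 / L ^ 2 := by
    rw [← hr]; field_simp
  have h7 : c₀ * c₁ * r ^ 4 / L ^ 2 ≤ 24 * Q * r * s := by
    rw [← h6]; linarith
  have h8 : q ^ 3 ≤ 8 * Q ^ 3 * r ^ 3 := by
    calc q ^ 3 ≤ (2 * Q * r) ^ 3 := pow_le_pow_left₀ hq hqr 3
      _ = 8 * Q ^ 3 * r ^ 3 := by ring
  have h9 : c₀ * c₁ * r ^ 3 / L ^ 2 ≤ 24 * Q * s := by
    have h10 : r * (c₀ * c₁ * r ^ 3 / L ^ 2) ≤ r * (24 * Q * s) := by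
      calc r * (c₀ * c₁ * r ^ 3 / L ^ 2) = c₀ * c₁ * r ^ 4 / L ^ 2 := by ring
        _ ≤ 24 * Q * r * s := h7
        _ = r * (24 * Q * s) := by ring
    exact le_of_mul_le_mul_left h10 hr0
  calc c₀ * c₁ / (192 * Q ^ 4) * q ^ 3 / L ^ 2
      ≤ c₀ * c₁ / (192 * Q ^ 4) * (8 * Q ^ 3 * r ^ 3) / L ^ 2 := by
        apply div_le_div_of_nonneg_right _ (by positivity)
        apply mul_le_mul_of_nonneg_left h8 (by positivity)
    _ = (c₀ * c₁ * r ^ 3 / L ^ 2) / (24 * Q) := by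
        field_simp
        norm_num
    _ ≤ s := by
        rw [div_le_iff₀ (by positivity)]
        linarith

private theorem FIN_sqrt (Q a y : ℕ) (r : ℝ) (hQ : 1 ≤ Q) (ha : a ≤ 4 * Q ^ 2) (hr : r ^ 2 = (y : ℝ)) (hr1 : 1 ≤ r) :
    ((Nat.sqrt (a * y) + 1 : ℕ) : ℝ) ≤ 3 * (Q : ℝ) * r := by
  have hQ' : (1 : ℝ) ≤ Q := by exact_mod_cast hQ
  have h1 : ((Nat.sqrt (a * y) : ℕ) : ℝ) ^ 2 ≤ (2 * Q * r) ^ 2 := by
    have h2 : (Nat.sqrt (a * y)) ^ 2 ≤ a * y := by rw [pow_two]; exact Nat.sqrt_le _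
    have h3 : ((Nat.sqrt (a * y) : ℕ) : ℝ) ^ 2 ≤ (a : ℝ) * y := by exact_mod_cast h2
    have h4 : (a : ℝ) ≤ 4 * (Q : ℝ) ^ 2 := by exact_mod_cast ha
    have h5 : (a : ℝ) * y ≤ 4 * (Q : ℝ) ^ 2 * y := mul_le_mul_of_nonneg_right h4 (Nat.cast_nonneg y)
    calc ((Nat.sqrt (a * y) : ℕ) : ℝ) ^ 2 ≤ 4 * (Q : ℝ) ^ 2 * y := h3.trans h5
      _ = (2 * Q * r) ^ 2 := by rw [← hr]; ring
  have h6 : ((Nat.sqrt (a * y) : ℕ) : ℝ) ≤ 2 * Q * r :=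
    le_of_sq_le_sq h1 (by positivity)
  push_cast
  nlinarith

theorem FIN (hDAT : DAT_stmt) (hFLP : FLP_stmt) (hCNT : CNT_stmt) : FIN_stmt := by
  intro i a t r ht hper hex
  obtain ⟨s, Q, m, μ, κ, D, g, h, hd⟩ := hDAT i a t r ht hper hex
  obtain ⟨c₀, hc₀, x₀, hM⟩ := hFLP s m μ D g hd.m0 hd.μm hd.D0 hd.gD hd.g0 hd.g1
  obtain ⟨c₁, x₁, hc₁, hp⟩ := Pool.Agent.helper7.OC.primes_ap m κ hd.m0 hd.κm
  have hp' : ∀ x : ℕ, x₁ ≤ x → c₁ * x / Real.log x ≤ (#(Pq m κ x) : ℝ) := by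
    intro x hx
    exact hp x hx
  have hQ1 : 1 ≤ Q := hd.Q1
  have hQR : (1 : ℝ) ≤ (Q : ℝ) := by exact_mod_cast hQ1
  have hQ0 : (0 : ℝ) < (Q : ℝ) := by linarith
  have hev : ∀ᶠ X : ℕ in Filter.atTop, Real.log (X : ℝ) ≤ c₀ / (48 * (Q : ℝ) ^ 3) * (X : ℝ) ^ (1 / 4 : ℝ) := by
    have h1 := (isLittleO_log_rpow_atTop (r := 1 / 4) (by norm_num)).bound
      (show (0 : ℝ) < c₀ / (48 * (Q : ℝ) ^ 3) by positivity)
    have h2 := tendsto_natCast_atTop_atTop (R := ℝ) |>.eventually h1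
    filter_upwards [h2] with X hX
    rw [Real.norm_eq_abs, Real.norm_eq_abs, abs_of_nonneg (Real.rpow_nonneg (Nat.cast_nonneg X) _)] at hX
    exact (le_abs_self _).trans hX
  obtain ⟨X₁, hX₁⟩ := Filter.eventually_atTop.mp hev
  refine ⟨c₀ * c₁ / (192 * (Q : ℝ) ^ 4), by positivity,
    max X₁ ((x₀ + x₁ + 4 * Q + 2) ^ 2 * Q), ?_⟩
  intro X hX
  have hXX₁ : X₁ ≤ X := le_trans (le_max_left _ _) hX
  have hXN : (x₀ + x₁ + 4 * Q + 2) ^ 2 * Q ≤ X := le_trans (le_max_right _ _) hX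
  obtain ⟨y, hy⟩ : ∃ y, y = Nat.sqrt (X / Q) := ⟨_, rfl⟩
  have hyN : x₀ + x₁ + 4 * Q + 2 ≤ y := by
    rw [hy, Nat.le_sqrt, Nat.le_div_iff_mul_le (by omega), ← pow_two]
    exact hXN
  have hyX : Q * y ^ 2 ≤ X := by
    have h1 : y * y ≤ X / Q := by rw [hy]; exact Nat.sqrt_le _
    have h2 : y * y * Q ≤ X := (Nat.le_div_iff_mul_le (by omega)).1 h1
    calc Q * y ^ 2 = y * y * Q := by ring
      _ ≤ X := h2
  have hyX2 : X ≤ 4 * Q * y ^ 2 := by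
    have h1 : X / Q < (y + 1) * (y + 1) := by rw [hy]; exact Nat.lt_succ_sqrt _
    have h2 : X < (y + 1) * (y + 1) * Q := (Nat.div_lt_iff_lt_mul (by omega)).1 h1
    have h3 : (y + 1) * (y + 1) * Q ≤ (2 * y) * (2 * y) * Q := by
      apply Nat.mul_le_mul_right
      exact Nat.mul_le_mul (by omega) (by omega)
    calc X ≤ (2 * y) * (2 * y) * Q := by omega
      _ = 4 * Q * y ^ 2 := by ring
  have hy2 : 2 ≤ y := by omega
  have hyleX : y ≤ X := by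
    have : y ≤ Q * y ^ 2 := by
      calc y ≤ y * y := Nat.le_mul_self y
        _ = 1 * y ^ 2 := by ring
        _ ≤ Q * y ^ 2 := Nat.mul_le_mul_right _ hQ1
    omega
  have hL : 0 < Real.log (X : ℝ) := Real.log_pos (by exact_mod_cast (by omega : 1 < X))
  have hlog : ∀ b : ℝ, 0 ≤ b → b / Real.log X ≤ b / Real.log y := by
    intro b hb
    apply div_le_div_of_nonneg_left hb
    · exact Real.log_pos (by exact_mod_cast (by omega : 1 < y))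
    · exact Real.log_le_log (by exact_mod_cast (by omega : 0 < y)) (by exact_mod_cast hyleX)
  have hP : c₁ * (y : ℝ) / Real.log X ≤ (#(Pq m κ y) : ℝ) :=
    (hlog _ (by positivity)).trans (hp' y (by omega))
  -- the lower bound of the number of pairs
  have hlow : (#(Pq m κ y) : ℝ) * (c₀ * (y : ℝ) / Real.log X) ≤
      (#{x ∈ Pq m μ y ×ˢ Pq m κ y | (∑ u ∈ uB s x.1, g u) + (∑ u ∈ uB s (Q * x.2), h u) ≠ 0} : ℝ) := by
    have h1 : #{x ∈ Pq m μ y ×ˢ Pq m κ y | (∑ u ∈ uB s x.1, g u) + (∑ u ∈ uB s (Q * x.2), h u) ≠ 0} =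
        ∑ p ∈ Pq m κ y, #{M ∈ Pq m μ y | (∑ u ∈ uB s M, g u) + (∑ u ∈ uB s (Q * p), h u) ≠ 0} := by
      rw [Finset.card_filter, Finset.sum_product_right]
      apply Finset.sum_congr rfl
      intro p _
      rw [Finset.card_filter]
    rw [h1]
    push_cast
    rw [← nsmul_eq_mul, ← Finset.sum_const]
    apply Finset.sum_le_sum
    intro p _
    have h2 := hM y (by omega) (1 + ∑ u ∈ uB s (Q * p), h u)
    refine (hlog _ (by positivity)).trans (h2.trans ?_)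
    have h3 : #{M ∈ Pq m μ y | ∑ u ∈ uB s M, g u = 1 + ∑ u ∈ uB s (Q * p), h u} ≤
        #{M ∈ Pq m μ y | (∑ u ∈ uB s M, g u) + (∑ u ∈ uB s (Q * p), h u) ≠ 0} := by
      apply card_le_card
      intro M hM'
      rw [mem_filter] at hM' ⊢
      refine ⟨hM'.1, ?_⟩
      rw [hM'.2, add_assoc, CharTwo.add_self_eq_zero, add_zero]
      exact one_ne_zero
    exact_mod_cast h3
  have hcnt := hCNT i a r s Q m μ κ D g h hd y (by omega)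
  have hcntR : (#{x ∈ Pq m μ y ×ˢ Pq m κ y | (∑ u ∈ uB s x.1, g u) + (∑ u ∈ uB s (Q * x.2), h u) ≠ 0} : ℝ) ≤
      4 * ((Nat.sqrt (2 * Q * y) + 1 : ℕ) : ℝ) * (sD i a r (Q * y ^ 2) : ℝ) +
      (2 * (Q : ℝ) + 2) * ((Nat.sqrt (4 * Q * y) + 1 : ℕ) : ℝ) * (#(Pq m κ y) : ℝ) := by
    exact_mod_cast hcnt
  obtain ⟨w, hw⟩ : ∃ w : ℝ, w = Real.sqrt y := ⟨_, rfl⟩
  have hr2 : w ^ 2 = (y : ℝ) := by rw [hw]; exact Real.sq_sqrt (by positivity)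
  have hr1 : 1 ≤ w := by
    rw [hw]
    exact Real.one_le_sqrt.mpr (by exact_mod_cast (by omega : 1 ≤ y))
  obtain ⟨q, hq⟩ : ∃ q : ℝ, q = (X : ℝ) ^ (1 / 4 : ℝ) := ⟨_, rfl⟩
  have hq0 : 0 ≤ q := by rw [hq]; exact Real.rpow_nonneg (Nat.cast_nonneg X) _
  have hq4 : q ^ 4 = (X : ℝ) := by
    rw [hq, ← Real.rpow_natCast, ← Real.rpow_mul (Nat.cast_nonneg X)]
    norm_num
  have hq3 : q ^ 3 = (X : ℝ) ^ (3 / 4 : ℝ) := by
    rw [hq, ← Real.rpow_natCast, ← Real.rpow_mul (Nat.cast_nonneg X)]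
    norm_num
  have hqr : q ≤ 2 * (Q : ℝ) * w := by
    have h2 : q ^ 4 ≤ (2 * (Q : ℝ) * w) ^ 4 := by
      rw [hq4]
      have h3 : (X : ℝ) ≤ 4 * (Q : ℝ) * (y : ℝ) ^ 2 := by exact_mod_cast hyX2
      have h4 : (2 * (Q : ℝ) * w) ^ 4 = 16 * (Q : ℝ) ^ 4 * (y : ℝ) ^ 2 := by
        rw [← hr2]; ring
      rw [h4]
      refine h3.trans ?_
      apply mul_le_mul_of_nonneg_right _ (by positivity)
      have h5 : (Q : ℝ) ≤ (Q : ℝ) ^ 4 := by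
        calc (Q : ℝ) = (Q : ℝ) ^ 1 := (pow_one _).symm
          _ ≤ (Q : ℝ) ^ 4 := pow_le_pow_right₀ hQR (by norm_num)
      nlinarith
    exact le_of_pow_le_pow_left₀ (by norm_num) (by positivity) h2
  have hS1 := FIN_sqrt Q (2 * Q) y w hQ1 (by nlinarith) hr2 hr1
  have hS2 := FIN_sqrt Q (4 * Q) y w hQ1 (by nlinarith) hr2 hr1
  have hfin := FIN_arith c₀ c₁ Q y w (Real.log X) (#(Pq m κ y) : ℝ) _ _ (sD i a r (Q * y ^ 2) : ℝ) q
    hc₀ hc₁ hQR hr2 hr1 hL hP hS1 hS2 (by positivity) hq0 hqr (by rw [hq]; exact hX₁ X hXX₁)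
    (hlow.trans hcntR)
  rw [hq3] at hfin
  refine hfin.trans ?_
  exact_mod_cast FIN_mono i a r hyX

end Pool.Agent.TPC
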